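import Pool.Agent.Helper61.FL.CNB

/-! fl_mods CCF: two components with attachments not adjacent to `w` are connected in `G - N[w]`. -/

set_option autoImplicit false

namespace Pool.Agent.Helper48.FL

open Pool.Agent.Helper64.CT Pool.Agent.Helper64.FL Pool.Agent.Helper61.FL

variable {V : Type} {G : SimpleGraph V}

theorem kc_sub_far {x u w : V} (h : ¬ Comp G x u w) (hw : w ∈ Far G x) : KC G x u ⊆ Far G w := by
  intro z hz
  refine ⟨?_, ?_⟩
  · rintro rfl
    exact h hz
  · intro hadj
    exact h (Comp.step hz hw hadj.symm)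

theorem half {x u w p : V} (h : ¬ Comp G x u w) (hw : w ∈ Far G x) (hp : p ∈ Att G x u)
    (hwp : ¬ G.Adj w p) : Cn G (Far G w) u x := by
  obtain ⟨hxp, u', huu', hpu'⟩ := hp
  have hsub := kc_sub_far h hw
  have h1 : Cn G (Far G w) u u' := cn_mono hsub (cn_KC huu')
  have hpF : p ∈ Far G w := by
    refine ⟨?_, hwp⟩
    rintro rfl
    exact hw.2 hxp
  have hxF : x ∈ Far G w := ⟨fun e => hw.1 e.symm, fun e => hw.2 e.symm⟩
  have hu'F : u' ∈ Far G w := hsub huu'
  exact cn_trans h1 (cn_trans (cn_adj hu'F hpF hpu'.symm) (cn_adj hpF hxF hxp.symm))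

theorem st_CCF : ST_CCF := by
  intro V G x u v w p q huw hvw hw hp hwp hq hwq
  exact comp_of_cn (cn_trans (half huw hw hp hwp) (cn_symm (half hvw hw hq hwq)))

end Pool.Agent.Helper48.FL
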